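import Mathlib
import Pool.Agent.Helper28.H2.Orb
import Pool.Agent.Helper28.HN.Cfg
import Pool.Agent.Helper24.HN.Defs

/-!
# Project H2 (type 2): configurations over the `p`-adic integers
-/

namespace Pool.Agent.Helper28.H2

open MvPolynomial Pool.Agent.Helper24.H2
open Pool.Agent.Helper28.HN (I Un En cr aff cp ee)

/-- The system as polynomials in the unknowns. -/
noncomputable def Gs {m : ℕ} {S : Type*} [CommRing S] (c : Ix m → S) (i : En m) :
    MvPolynomial (Un m) S := Eqn (fun e => C (c e)) X i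

/-- A configuration near a flop curve: `k = (u, z)`, small right hand sides. -/
structure Cfg {p : ℕ} [Fact p.Prime] {m : ℕ} (c : Ix m → ℤ_[p]) (k : Un m → ℤ_[p]) : Prop where
  psi : ∀ a, psh c (aff fun i => k (.inl i)) (k (.inr a)) = 0
  kap : kah c (aff fun i => k (.inl i)) (k (.inr 0)) = 0
  F0 : Fh c (aff fun i => k (.inl i)) (k (.inr 0)) = 0
  hA : ‖Ah c (aff fun i => k (.inl i))‖ ≤ (p : ℝ) ^ (-2 : ℤ)
  hB : ‖Bh c (aff fun i => k (.inl i))‖ ≤ (p : ℝ) ^ (-2 : ℤ)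
  hq : ‖qh c (aff fun i => k (.inl i)) (xz c (fun i => k (.inl i)) (k (.inr 1)))
    (k (.inr (Fin.last (m + 1))))‖ = (p : ℝ) ^ (-1 : ℤ)
  hP : IsUnit (Pp c k)
  hst : ‖Ah c (aff fun i => k (.inl i)) * qh c (aff fun i => k (.inl i))
      (xz c (fun i => k (.inl i)) (k (.inr 0))) (k (.inr (Fin.last (m + 1)))) -
    qa c (aff fun i => k (.inl i)) (xz c (fun i => k (.inl i)) (k (.inr 0))) *
      Fh c (aff fun i => k (.inl i)) (k (.inr (Fin.last (m + 1))))‖ = (p : ℝ) ^ (-2 : ℤ)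

/-- The start curve of a configuration. -/
noncomputable def sy {p : ℕ} [Fact p.Prime] {m : ℕ} (c : Ix m → ℤ_[p]) (k : Un m → ℤ_[p]) :
    I m → ℤ_[p] := yh c (aff fun i => k (.inl i)) (k (.inr 0))

/-- Points of the curve `N` (with coordinates in the `p`-adic integers). -/
def Rp {p : ℕ} [Fact p.Prime] {m : ℕ} (c : Ix m → ℤ_[p]) (k : Un m → ℤ_[p]) (N : ℕ)
    (x : Fin (m + 1) → ℤ_[p]) (z : ℤ_[p]) : Prop :=
  Rz (cp c) (cp (aff fun i => k (.inl i))) (cp (xh c (sy c k))) (cp (sy c k)) N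
    (cp (aff x)) (cp (yh c (aff x) z))

end Pool.Agent.Helper28.H2
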