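import Mathlib
import Pool.Agent.Helper64.XJ.Nat
import Pool.Agent.Helper37.H2.Chain

/-!
# Project H2 (type 2): naturality in the pointwise shapes
-/

namespace Pool.Agent.Helper28.H2.Nt

open Pool.Agent.Helper24.H2
open Pool.Agent.Helper28.HN (I Un En cr aff)

variable {m : ℕ} {S S' : Type*} [CommRing S] [CommRing S'] (f : S →+* S') (c : Ix m → S)
  (x y ξ : I m → S) (u : Fin (m + 1) → S) (z : S)

theorem map_aff (i : I m) : f (aff u i) = aff (fun i => f (u i)) i :=
  congrFun (Pool.Agent.Helper64.XJ.map_aff f u) i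
theorem map_detM : f (Mx c x).det = (Mx (fun e => f (c e)) (fun i => f (x i))).det :=
  Pool.Agent.Helper64.XJ.map_det_Mx f c x
theorem map_detN : f (Nx c y).det = (Nx (fun e => f (c e)) (fun i => f (y i))).det :=
  Pool.Agent.Helper64.XJ.map_det_Nx f c y
theorem map_yh (i : I m) : f (yh c x z i) = yh (fun e => f (c e)) (fun i => f (x i)) (f z) i :=
  congrFun (Pool.Agent.Helper64.XJ.map_yh f c x z) i
theorem map_xh (i : I m) : f (xh c y i) = xh (fun e => f (c e)) (fun i => f (y i)) i :=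
  congrFun (Pool.Agent.Helper64.XJ.map_xh f c y) i
theorem map_Fh : f (Fh c x z) = Fh (fun e => f (c e)) (fun i => f (x i)) (f z) :=
  Pool.Agent.Helper64.XJ.map_Fh f c x z
theorem map_psh : f (psh c x z) = psh (fun e => f (c e)) (fun i => f (x i)) (f z) :=
  Pool.Agent.Helper64.XJ.map_psh f c x z
theorem map_kah : f (kah c x z) = kah (fun e => f (c e)) (fun i => f (x i)) (f z) :=
  Pool.Agent.Helper64.XJ.map_kah f c x z
theorem map_ch (y1 : I m → S) (N : ℕ) (i : I m) :
    (((ch c x ξ y1 N).1 i).map f = (ch (fun e => f (c e)) (fun i => f (x i)) (fun i => f (ξ i))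
      (fun i => f (y1 i)) N).1 i) ∧
    (((ch c x ξ y1 N).2 i).map f = (ch (fun e => f (c e)) (fun i => f (x i)) (fun i => f (ξ i))
      (fun i => f (y1 i)) N).2 i) :=
  ⟨((Pool.Agent.Helper37.H2.ch_map f c x ξ y1 N).1 i).symm,
    ((Pool.Agent.Helper37.H2.ch_map f c x ξ y1 N).2 i).symm⟩

end Pool.Agent.Helper28.H2.Nt
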