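import Mathlib
import Pool.Agent.Helper28.H2.Cfg
import Pool.Agent.Helper28.HN.Pts
import Pool.Agent.Helper64.XJ.Nat

/-!
# Project H2 (type 2): units in the ball
-/

namespace Pool.Agent.Helper28.H2.Un

open Pool.Agent.Helper24.H2
open Pool.Agent.Helper28.HN (I Un En cr aff cp ee)
open Pool.Agent.Helper28.HN.Pts (toZMod_eq isUnit_of_toZMod zmod_fun)

section unit

variable {p : ℕ} [Fact p.Prime] {m : ℕ} (c : Ix m → ℤ_[p]) {x u : Fin (m + 1) → ℤ_[p]}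
  {z w : ℤ_[p]}

theorem aff_zmod (h : ‖x - u‖ ≤ (p : ℝ) ^ (-2 : ℤ)) :
    (fun i => PadicInt.toZMod ((aff x : I m → ℤ_[p]) i)) =
      fun i => PadicInt.toZMod ((aff u : I m → ℤ_[p]) i) := by
  rw [Pool.Agent.Helper64.XJ.map_aff, Pool.Agent.Helper64.XJ.map_aff, zmod_fun h]

theorem detM_unit (h : ‖x - u‖ ≤ (p : ℝ) ^ (-2 : ℤ)) (hu : IsUnit (Mx c (aff u)).det) :
    IsUnit (Mx c (aff x)).det := by
  refine isUnit_of_toZMod ?_ hu
  have e : ∀ v : I m → ℤ_[p], PadicInt.toZMod (Mx c v).det =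
      (Mx (fun e => PadicInt.toZMod (c e)) (fun i => PadicInt.toZMod (v i))).det := by
    intro v
    rw [RingHom.map_det, Pool.Agent.Helper64.XJ.map_Mx]
  rw [e, e, aff_zmod h]

theorem yh_zmod (h : ‖x - u‖ ≤ (p : ℝ) ^ (-2 : ℤ)) (hz : ‖z - w‖ ≤ (p : ℝ) ^ (-2 : ℤ)) :
    (fun i => PadicInt.toZMod (yh c (aff x) z i)) =
      fun i => PadicInt.toZMod (yh c (aff u) w i) := by
  rw [Pool.Agent.Helper64.XJ.map_yh, Pool.Agent.Helper64.XJ.map_yh, aff_zmod h, toZMod_eq hz]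

theorem detN_unit (h : ‖x - u‖ ≤ (p : ℝ) ^ (-2 : ℤ)) (hz : ‖z - w‖ ≤ (p : ℝ) ^ (-2 : ℤ))
    (hu : IsUnit (Nx c (yh c (aff u) w)).det) : IsUnit (Nx c (yh c (aff x) z)).det := by
  refine isUnit_of_toZMod ?_ hu
  have e : ∀ v : I m → ℤ_[p], PadicInt.toZMod (Nx c v).det =
      (Nx (fun e => PadicInt.toZMod (c e)) (fun i => PadicInt.toZMod (v i))).det := by
    intro v
    rw [RingHom.map_det, Pool.Agent.Helper64.XJ.map_Nx]
  rw [e, e, yh_zmod c h hz]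

variable {c} {k : Un m → ℤ_[p]}

theorem detM_u0 (h : IsUnit (Pp c k)) : IsUnit (Mx c (aff fun i => k (.inl i))).det := by
  unfold Pp at h
  exact isUnit_of_mul_isUnit_left (isUnit_of_mul_isUnit_left (isUnit_of_mul_isUnit_left
    (isUnit_of_mul_isUnit_left (isUnit_of_mul_isUnit_left (isUnit_of_mul_isUnit_left
      (isUnit_of_mul_isUnit_left h))))))

theorem detN_u0 (h : IsUnit (Pp c k)) (a : Fin (m + 2)) :
    IsUnit (Nx c (yh c (aff fun i => k (.inl i)) (k (.inr a)))).det := by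
  unfold Pp at h
  have h1 := isUnit_of_mul_isUnit_right (isUnit_of_mul_isUnit_left (isUnit_of_mul_isUnit_left
    (isUnit_of_mul_isUnit_left (isUnit_of_mul_isUnit_left (isUnit_of_mul_isUnit_left h)))))
  exact IsUnit.prod_univ_iff.1 h1 a

end unit

end Pool.Agent.Helper28.H2.Un
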