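import Mathlib
import Pool.Agent.Helper28.H2.Un
import Pool.Agent.Helper94.H2.ExLoc
import Pool.Agent.Helper64.XJ.Int

/-!
# Project H2 (type 2): every curve of the chain has a point in the ball
-/

namespace Pool.Agent.Helper28.H2.Pts

open Pool.Agent.Helper24.HN Pool.Agent.Helper24.H2
open Pool.Agent.Helper28.HN (I Un En cr aff cp ee)

theorem pts {p : ℕ} [Fact p.Prime] (hp : p ≠ 2) {m : ℕ} (hm : 4 ≤ m) (c : Ix m → ℤ_[p])
    (k : Un m → ℤ_[p]) (h : Cfg c k) (N : ℕ) : ∃ x z a, Rp c k (2 * N + 1) x z ∧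
      ‖x - fun i => k (.inl i)‖ ≤ (p : ℝ) ^ (-2 : ℤ) ∧ ‖z - k (.inr a)‖ ≤ (p : ℝ) ^ (-2 : ℤ) := by
  obtain ⟨L, hA, hB, hC, hxi, hpsi, hkap, hsl, hd⟩ := Pool.Agent.Helper94.H2.exists_loc c
  obtain ⟨R, M, hu, hz, -, -, -, -, hM, -⟩ :=
    Pool.Agent.Helper64.XJ.exists_mems hp hm c k h L hA hB hC hxi hpsi hkap hsl hd
  obtain ⟨i, b, k', x, -, hx⟩ := Pool.Agent.Helper28.HN.Pts.st_all M N
  have h0 : ‖R.z b - R.z b‖ ≤ (p : ℝ) ^ (-2 : ℤ) := by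
    rw [sub_self, norm_zero]
    positivity
  have hball := hx.ball (R.z b) h0
  rw [hu] at hball
  have hD : (Mx c (aff (x (R.z b)))).det ≠ 0 :=
    (Un.detM_unit c hball (Un.detM_u0 h.hP)).ne_zero
  refine ⟨x (R.z b), R.z b, b, hM N _ _ (hx.mem (R.z b) h0) hD, hball, ?_⟩
  rw [← congrFun hz b]
  exact h0

end Pool.Agent.Helper28.H2.Pts
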