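import Mathlib
import Pool.Agent.Helper28.H2.Pts
import Pool.Agent.Helper28.H2.Nt
import Pool.Agent.Helper64.XJ.Pc
import Pool.Agent.Helper37.H2.Pc
import Pool.Agent.Helper45.H2.Padic
import Pool.Agent.Helper76.H2.Cfg
import Pool.Agent.Helper69.H2.Fxy

/-!
# Project H2 (type 2): the assembly of `orb`
-/

namespace Pool.Agent.Helper28.H2.OrbF

open MvPolynomial Pool.Agent.Helper24.H2 Pool.Agent.Helper28.H2.Nt
open Pool.Agent.Helper28.HN (I Un En cr aff cp ee)

theorem detM_smul {m : ℕ} (hm : 1 ≤ m) {S : Type*} [CommRing S] (c : Ix m → S) (x : I m → S)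
    (α : S) : (Mx c (fun i => α * x i)).det = α ^ (m + 1) * (Mx c x).det := by
  have h := congrFun (Pool.Agent.Helper64.XJ.P.yh_smul c x 0 α hm) 0
  rw [Pool.Agent.Helper64.XJ.P.yh_zero, Pool.Agent.Helper64.XJ.P.yh_zero] at h
  exact h

theorem detN_smul {m : ℕ} (hm : 1 ≤ m) {S : Type*} [CommRing S] (c : Ix m → S) (y : I m → S)
    (β : S) : (Nx c (fun i => β * y i)).det = β ^ (m + 1) * (Nx c y).det := by
  have h := congrFun (Pool.Agent.Helper64.XJ.P.xh_smul c y β hm) (Fin.last (m + 1))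
  have e : ∀ v : I m → S, xh c v (Fin.last (m + 1)) = (Nx c v).det := by
    intro v
    rw [xh, ← Fin.succ_last, Fin.cons_succ, vh, Fin.snoc_last]
  rw [e, e] at h
  exact h

/-- The start curve over a number field inside `ℚ_[p]`. -/
theorem orb_of_cfg {p : ℕ} [Fact p.Prime] (hp : p ≠ 2) {m : ℕ} (hm : 4 ≤ m) (c : Ix m → ℤ_[p])
    (k : Un m → ℤ_[p]) (h : Cfg c k) {K' : Type} [Field K'] (ι : K' →+* ℚ_[p]) (cK : Ix m → K')
    (kK : Un m → K') (hc : ∀ e, ι (cK e) = c e) (hk : ∀ i, ι (kK i) = k i) :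
    letI : Algebra K' (PadicAlgCl p) := ((algebraMap ℚ_[p] (PadicAlgCl p)).comp ι).toAlgebra
    Orb (k := PadicAlgCl p) cK (aff fun i => kK (.inl i))
      (xh cK (yh cK (aff fun i => kK (.inl i)) (kK (.inr 0))))
      (yh cK (aff fun i => kK (.inl i)) (kK (.inr 0))) := by
  let _ : Algebra K' (PadicAlgCl p) := ((algebraMap ℚ_[p] (PadicAlgCl p)).comp ι).toAlgebra
  have hι : Function.Injective ι := ι.injective
  have hm1 : 1 ≤ m := by omega
  set ψ : ℤ_[p] →+* ℚ_[p] := PadicInt.Coe.ringHom (p := p) with hψ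
  have hψv : ∀ a : ℤ_[p], ψ a = (a : ℚ_[p]) := fun a => rfl
  set x0 : I m → K' := aff fun i => kK (.inl i) with hx0
  set z0 : K' := kK (.inr 0) with hz0
  set y1 : I m → K' := yh cK x0 z0 with hy1
  set ξ0 : I m → K' := xh cK y1 with hξ0
  -- the images in the p-adic numbers
  have ec : (fun e => ι (cK e)) = fun e => ψ (c e) := by
    funext e; exact hc e
  have ex : (fun i => ι (x0 i)) = fun i => ψ ((aff fun i => k (.inl i) : I m → ℤ_[p]) i) := by
    funext i
    rw [hx0, map_aff, map_aff]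
    congr 1
    funext j
    exact hk _
  have ez : ι z0 = ψ (k (.inr 0)) := hk _
  have ey : (fun i => ι (y1 i)) = fun i => ψ (sy c k i) := by
    funext i
    rw [hy1, map_yh, sy, map_yh, ec, ex, ez]
  have eξ : (fun i => ι (ξ0 i)) = fun i => ψ (xh c (sy c k) i) := by
    funext i
    rw [hξ0, map_xh, map_xh, ec, ey]
  have eψ : ∀ {σ : Type} (v : σ → ℤ_[p]), (fun i => ψ (v i)) = cp v := fun v => rfl
  have hch : ∀ N i, ((ch cK x0 ξ0 y1 N).1 i).map ι = (ch (cp c) (cp (aff fun i => k (.inl i)))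
      (cp (xh c (sy c k))) (cp (sy c k)) N).1 i ∧
      ((ch cK x0 ξ0 y1 N).2 i).map ι = (ch (cp c) (cp (aff fun i => k (.inl i)))
      (cp (xh c (sy c k))) (cp (sy c k)) N).2 i := by
    intro N i
    have := map_ch ι cK x0 ξ0 y1 N i
    rw [ec, ex, eξ, ey] at this
    exact this
  -- the determinant
  have hD : (Mx c (aff fun i => k (.inl i))).det ≠ 0 := by
    intro h0
    have := h.hP
    rw [Pp, h0] at this
    simp at this
  have hD' : (Mx cK x0).det ≠ 0 := by
    intro h0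
    have h1 : yh cK x0 z0 0 = 0 := by
      rw [Pool.Agent.Helper64.XJ.P.yh_zero, h0]
    have h2 : ι (y1 0) = 0 := by rw [hy1, h1, map_zero]
    have h3 : ι (y1 0) = ψ (sy c k 0) := congrFun ey 0
    rw [h2, sy, Pool.Agent.Helper64.XJ.P.yh_zero] at h3
    have h4 : (Mx c (aff fun i => k (.inl i))).det = 0 := by
      have h5 : ψ (Mx c (aff fun i => k (.inl i))).det = ψ 0 := by rw [← h3, map_zero]
      exact Subtype.val_injective h5
    exact hD h4
  -- facts at the odd curves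
  have hodd : ∀ N, (ch cK x0 ξ0 y1 (2 * N + 1)).1 0 ≠ 0 ∧ (ch cK x0 ξ0 y1 (2 * N + 1)).2 0 ≠ 0 ∧
      (Mx (fun e => Polynomial.C (cK e)) (ch cK x0 ξ0 y1 (2 * N + 1)).1).det ≠ 0 ∧
      (Nx (fun e => Polynomial.C (cK e)) (ch cK x0 ξ0 y1 (2 * N + 1)).2).det ≠ 0 := by
    intro N
    obtain ⟨x, z, a, hR, hx, hz⟩ := Pts.pts hp hm c k h N
    have hu1 := (Un.detM_unit c hx (Un.detM_u0 h.hP)).ne_zero
    have hu2 := (Un.detN_unit c hx hz (Un.detN_u0 h.hP a)).ne_zero
    obtain ⟨τ, α, β, hα, hβ, h1, h2⟩ := hR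
    have hψ0 : ∀ a : ℤ_[p], ψ a = 0 → a = 0 := fun a ha => Subtype.val_injective ha
    -- evaluation at `τ`
    have hev1 : ∀ i, ((ch (cp c) (cp (aff fun i => k (.inl i))) (cp (xh c (sy c k)))
        (cp (sy c k)) (2 * N + 1)).1 i).eval τ =
        ((Polynomial.evalRingHom τ).comp (Polynomial.mapRingHom ι))
          ((ch cK x0 ξ0 y1 (2 * N + 1)).1 i) := by
      intro i
      rw [← (hch _ _).1]
      rfl
    have hev2 : ∀ i, ((ch (cp c) (cp (aff fun i => k (.inl i))) (cp (xh c (sy c k)))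
        (cp (sy c k)) (2 * N + 1)).2 i).eval τ =
        ((Polynomial.evalRingHom τ).comp (Polynomial.mapRingHom ι))
          ((ch cK x0 ξ0 y1 (2 * N + 1)).2 i) := by
      intro i
      rw [← (hch _ _).2]
      rfl
    have hevc : (fun e => ((Polynomial.evalRingHom τ).comp (Polynomial.mapRingHom ι))
        (Polynomial.C (cK e))) = cp c := by
      funext e
      simp only [RingHom.comp_apply, Polynomial.coe_mapRingHom, Polynomial.map_C,
        Polynomial.coe_evalRingHom, Polynomial.eval_C]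
      exact hc e
    refine ⟨fun h0 => ?_, fun h0 => ?_, fun h0 => ?_, fun h0 => ?_⟩
    · have h3 := h1 0
      rw [hev1, h0, map_zero, mul_zero] at h3
      exact one_ne_zero (hψ0 _ h3)
    · have h3 := h2 0
      rw [hev2, h0, map_zero, mul_zero] at h3
      have h4 : yh c (aff x) z 0 = 0 := hψ0 _ h3
      rw [Pool.Agent.Helper64.XJ.P.yh_zero] at h4
      exact hu1 h4
    · have h3 := congrArg ((Polynomial.evalRingHom τ).comp (Polynomial.mapRingHom ι)) h0
      rw [map_detM, map_zero, hevc] at h3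
      simp only [← hev1] at h3
      have h4 : ψ (Mx c (aff x)).det = 0 := by
        have e1 : (fun i => ψ ((aff x : I m → ℤ_[p]) i)) = fun i => α *
            ((ch (cp c) (cp (aff fun i => k (.inl i))) (cp (xh c (sy c k)))
              (cp (sy c k)) (2 * N + 1)).1 i).eval τ := funext h1
        rw [map_detM, e1,
          detM_smul hm1]
        have e2 : (fun e => ψ (c e)) = cp c := rfl
        rw [e2, h3, mul_zero]
      exact hu1 (hψ0 _ h4)
    · have h3 := congrArg ((Polynomial.evalRingHom τ).comp (Polynomial.mapRingHom ι)) h0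
      rw [map_detN, map_zero, hevc] at h3
      simp only [← hev2] at h3
      have h4 : ψ (Nx c (yh c (aff x) z)).det = 0 := by
        have e1 : (fun i => ψ ((yh c (aff x) z : I m → ℤ_[p]) i)) = fun i => β *
            ((ch (cp c) (cp (aff fun i => k (.inl i))) (cp (xh c (sy c k)))
              (cp (sy c k)) (2 * N + 1)).2 i).eval τ := funext h2
        rw [map_detN, e1,
          detN_smul hm1]
        have e2 : (fun e => ψ (c e)) = cp c := rfl
        rw [e2, h3, mul_zero]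
      exact hu2 (hψ0 _ h4)
  have hne := Pool.Agent.Helper37.H2.P.ch_ne cK x0 ξ0 y1 (fun N0 => by
    refine ⟨N0, le_rfl, ?_, ?_⟩
    · have h1 := (hodd (N0 + 1)).1
      rw [(Pool.Agent.Helper37.H2.P.ch_same cK x0 ξ0 y1 (N0 + 1)).1] at h1
      exact h1
    · rw [(Pool.Agent.Helper37.H2.P.ch_same cK x0 ξ0 y1 N0).2]
      exact (hodd N0).2.1)
  have hDN : ∀ N, (Mx (fun e => Polynomial.C (cK e)) (ch cK x0 ξ0 y1 N).1).det ≠ 0 := by
    intro N
    rcases Nat.even_or_odd' N with ⟨M, rfl | rfl⟩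
    · have h1 := (hodd M).2.2.1
      rw [(Pool.Agent.Helper37.H2.P.ch_same cK x0 ξ0 y1 M).1] at h1
      exact h1
    · exact (hodd M).2.2.1
  -- the start point
  have hNy : (Nx cK y1).det ≠ 0 := by
    intro h0
    have h1 : ι (Nx cK y1).det = ψ (Nx c (sy c k)).det := by
      rw [map_detN, map_detN, ec, ey]
    rw [h0, map_zero] at h1
    have h2 : (Nx c (sy c k)).det = 0 := Subtype.val_injective h1.symm
    exact (Un.detN_u0 h.hP 0).ne_zero h2
  have hNN : ∀ N, (Nx (fun e => Polynomial.C (cK e)) (ch cK x0 ξ0 y1 N).2).det ≠ 0 := by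
    intro N
    rcases Nat.even_or_odd' N with ⟨M, rfl | rfl⟩
    · rcases M with _ | M
      · intro h0
        apply hNy
        have h1 := congrArg (Polynomial.evalRingHom (0 : K')) h0
        rw [map_detN, map_zero] at h1
        have e1 : (fun e => (Polynomial.evalRingHom (0 : K')) (Polynomial.C (cK e))) = cK := by
          funext e
          simp
        have e2 : (fun i => (Polynomial.evalRingHom (0 : K')) ((ch cK x0 ξ0 y1 0).2 i)) = y1 := by
          funext i
          simp [ch]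
        rw [e1, mul_zero, e2] at h1
        exact h1
      · have h1 := (hodd M).2.2.2
        rw [← (Pool.Agent.Helper37.H2.P.ch_same cK x0 ξ0 y1 M).2] at h1
        exact h1
    · exact (hodd M).2.2.2
  have hmap : ∀ (f : Polynomial K'), f.map (algebraMap K' (PadicAlgCl p)) =
      (f.map ι).map (algebraMap ℚ_[p] (PadicAlgCl p)) := by
    intro f
    rw [Polynomial.map_map]
    rfl
  have hF : Fh cK x0 z0 = 0 := by
    apply hι
    have h1 : ι (Fh cK x0 z0) = ψ (Fh c (aff fun i => k (.inl i)) (k (.inr 0))) := by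
      rw [map_Fh, map_Fh, ec, ex, ez]
    rw [h.F0, map_zero] at h1
    rw [map_zero]
    exact h1
  have hs1 : sf cK x0 ξ0 y1 = 0 := by
    apply hι
    have h1 : ι (psh cK x0 z0) = ψ (psh c (aff fun i => k (.inl i)) (k (.inr 0))) := by
      rw [map_psh, map_psh, ec, ex, ez]
    rw [h.psi 0, map_zero] at h1
    rw [map_zero]
    exact h1
  have hs2 : sf cK ξ0 ξ0 y1 = 0 := by
    apply hι
    have h1 : ι (kah cK x0 z0) = ψ (kah c (aff fun i => k (.inl i)) (k (.inr 0))) := by
      rw [map_kah, map_kah, ec, ex, ez]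
    rw [h.kap, map_zero] at h1
    rw [map_zero]
    exact h1
  have hon : OnX cK x0 y1 := (Pool.Agent.Helper64.XJ.P.onX_iff_lx cK x0 y1 hm1).2
    ⟨fun r => Pool.Agent.Helper64.XJ.P.lx_yh cK x0 z0 r, hF⟩
  have hon' : OnX cK ξ0 y1 := (Pool.Agent.Helper64.XJ.P.onX_iff_ly cK ξ0 y1 hm1).2
    ⟨fun r => Pool.Agent.Helper64.XJ.P.ly_xh cK y1 r, hs2⟩
  refine
    { x00 := rfl
      ξ00 := rfl
      y10 := by rw [hy1, Pool.Agent.Helper64.XJ.P.yh_zero]; exact hD'
      l0 := hon.1
      l1 := hon'.1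
      q0 := hon.2.2
      q1 := hon'.2.2
      s0 := hon.2.1
      s1 := hs1
      s2 := hs2
      hx := hne.1
      hy := hne.2.1
      hA := hne.2.2.1
      hK := hne.2.2.2
      hD := hDN
      hN := hNN
      hξ := fun h0 => ?_
      fX := ?_
      fY := ?_ }
  · have h1 : ξ0 (Fin.last (m + 1)) = (Nx cK y1).det := by
      rw [hξ0, xh, ← Fin.succ_last, Fin.cons_succ, vh, Fin.snoc_last]
    rw [h0] at h1
    exact hNy h1.symm
  · intro F1 F2 e1 e2 hF1 hF2 h12
    have := (Pool.Agent.Helper69.H2.fxy hp hm c k h F1 F2 e1 e2 hF1 hF2 h12).1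
    refine this.subset fun N hN => ?_
    simp only [Set.mem_ofPred_eq, hmap, (hch _ _).1] at hN ⊢
    exact hN
  · intro F1 F2 e1 e2 hF1 hF2 h12
    have := (Pool.Agent.Helper69.H2.fxy hp hm c k h F1 F2 e1 e2 hF1 hF2 h12).2
    refine this.subset fun N hN => ?_
    simp only [Set.mem_ofPred_eq, hmap, (hch _ _).2] at hN ⊢
    exact hN

/-- ORB. -/
theorem orb {m : ℕ} (hm : 4 ≤ m) : ∃ Δ : MvPolynomial (Ix m) ℚ, Δ ≠ 0 ∧
    ∀ (K : Type) [Field K] [NumberField K] (c : Ix m → K), aeval c Δ ≠ 0 →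
      ∃ (K' : Type) (_ : Field K') (_ : NumberField K') (_ : Algebra K K') (k : Type) (_ : Field k)
        (_ : IsAlgClosed k) (_ : CharZero k) (_ : Algebra K' k) (x0 ξ0 y1 : I m → K'),
        Orb (k := k) (fun e => algebraMap K K' (c e)) x0 ξ0 y1 := by
  obtain ⟨Δ, hΔ, H⟩ := Pool.Agent.Helper76.H2.exists_cfg hm
  refine ⟨Δ, hΔ, fun K _ _ c hc => ?_⟩
  obtain ⟨L, _, _, _, kL, hE, hP, hJ⟩ := H K c hc
  obtain ⟨p, hpp, φ, c', k', K', hp, hfin, hφ, hk', hc', hcfg⟩ :=
    Pool.Agent.Helper45.H2.exists_padic hm (fun e => algebraMap K L (c e)) kL hE hP hJ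
  have hcz : CharZero K' := charZero_of_injective_algebraMap (algebraMap ℚ K').injective
  have hnf : NumberField K' := { to_charZero := hcz, to_finiteDimensional := hfin }
  let ι : K' →+* ℚ_[p] := K'.val.toRingHom
  let ρ : K →+* K' := (φ.comp (algebraMap K L)).codRestrict K'.toSubfield fun x => hφ _
  let cK : Ix m → K' := fun e => ρ (c e)
  let kK : Un m → K' := fun i => ⟨(k' i : ℚ_[p]), hk' i⟩
  have hcc : ∀ e, ι (cK e) = c' e := fun e => (hc' e).symm
  have hkk : ∀ i, ι (kK i) = k' i := fun i => rfl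
  exact ⟨K', inferInstance, hnf, ρ.toAlgebra, PadicAlgCl p, inferInstance, inferInstance,
    inferInstance, ((algebraMap ℚ_[p] (PadicAlgCl p)).comp ι).toAlgebra, _, _, _,
    orb_of_cfg hp hm c' k' hcfg ι cK kK hcc hkk⟩

end Pool.Agent.Helper28.H2.OrbF
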